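import Mathlib

/-!
# Distinct squares in binary partial words with two holes
-/

set_option autoImplicit false

namespace Pool.Agent.Results.MP_322323_co.TwoHoles

/-- A binary partial word of length `n`: position `i` carries a letter `some a` or a hole `none`. -/
abbrev PWord (n : ℕ) := Fin n → Option Bool

/-- The number of holes of a partial word. -/
noncomputable def holes {n : ℕ} (w : PWord n) : ℕ := {i | w i = none}.ncard

/-- The factor of `w` of length `v.length` starting at position `i` exists and is contained in the
full word `v`: wherever the factor carries a letter, `v` carries the same letter. -/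
def FactorIn {n : ℕ} (w : PWord n) (i : ℕ) (v : List Bool) : Prop :=
  i + v.length ≤ n ∧ ∀ (k : ℕ) (hk : k < v.length) (hn : i + k < n),
    w ⟨i + k, hn⟩ = none ∨ w ⟨i + k, hn⟩ = some v[k]

/-- `Sq w`: the number of distinct nonempty full words `x` such that some factor of `w` is
contained in the square `xx`. -/
noncomputable def Sq {n : ℕ} (w : PWord n) : ℕ :=
  {x : List Bool | x ≠ [] ∧ ∃ i, FactorIn w i (x ++ x)}.ncard

/-- `w'` is obtained from `w` by replacing exactly one hole by a letter. -/
def IsStrengthening {n : ℕ} (w w' : PWord n) : Prop :=
  ∃ (i : Fin n) (a : Bool), w i = none ∧ w' = Function.update w i (some a)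

/-- The largest decrease of `Sq` over the strengthenings of `w`. -/
noncomputable def deltaSq {n : ℕ} (w : PWord n) : ℤ :=
  sSup {d : ℤ | ∃ w' : PWord n, IsStrengthening w w' ∧ d = (Sq w : ℤ) - (Sq w' : ℤ)}

/-- The largest value of `deltaSq` over the partial words of length `n` with `h` holes. -/
noncomputable def deltaH (h n : ℕ) : ℤ :=
  sSup {d : ℤ | ∃ w : PWord n, holes w = h ∧ d = deltaSq w}

namespace Proof

/-- the partial word, as a list -/
def wL : List (Option Bool) :=
  [some true, some false, some false, some false, some false, some false, some true, 
   some false, some false, some false, none, none, some false, some true, some false, 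
   some false, some false, some false, some false, some true, some false, some false]

/-- its strengthening, as a list -/
def vL : List (Option Bool) :=
  [some true, some false, some false, some false, some false, some false, some true, 
   some false, some false, some false, none, some true, some false, some true, some false, 
   some false, some false, some false, some false, some true, some false, some false]

/-- the partial word of a list -/
def ofL (l : List (Option Bool)) : PWord 22 := fun i => l.getD i.1 none

/-- containment of a prefix of a list in a full word -/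
def compat : List (Option Bool) → List Bool → Bool
  | _, [] => true
  | [], _ :: _ => false
  | none :: w, _ :: v => compat w v
  | some a :: w, b :: v => (a == b) && compat w v

/-- containment of some factor -/
def occurs : List (Option Bool) → List Bool → Bool
  | [], v => compat [] v
  | (a :: w), v => compat (a :: w) v || occurs w v

theorem compat_iff : ∀ (w : List (Option Bool)) (v : List Bool), compat w v = true ↔
    v.length ≤ w.length ∧ ∀ (k : ℕ) (hk : k < v.length),
      w.getD k none = none ∨ w.getD k none = some v[k]
  | w, [] => by simp [compat]
  | [], b :: v => by simp [compat]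
  | none :: w, b :: v => by
    rw [compat, compat_iff w v]
    constructor
    · rintro ⟨h1, h2⟩
      refine ⟨by simpa using h1, ?_⟩
      intro k hk
      cases k with
      | zero => left; rfl
      | succ k =>
        have := h2 k (by simpa using hk)
        simpa using this
    · rintro ⟨h1, h2⟩
      refine ⟨by simpa using h1, ?_⟩
      intro k hk
      have := h2 (k + 1) (by simpa using hk)
      simpa using this
  | some a :: w, b :: v => by
    rw [compat, Bool.and_eq_true, compat_iff w v]
    constructor
    · rintro ⟨h0, h1, h2⟩
      refine ⟨by simpa using h1, ?_⟩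
      intro k hk
      cases k with
      | zero =>
        right
        have : a = b := by simpa using h0
        simp [this]
      | succ k =>
        have := h2 k (by simpa using hk)
        simpa using this
    · rintro ⟨h1, h2⟩
      refine ⟨?_, by simpa using h1, ?_⟩
      · have := h2 0 (by simp)
        simpa using this
      · intro k hk
        have := h2 (k + 1) (by simpa using hk)
        simpa using this

theorem occurs_iff : ∀ (w : List (Option Bool)) (v : List Bool), occurs w v = true ↔
    ∃ i, i ≤ w.length ∧ compat (w.drop i) v = true
  | [], v => by simp [occurs]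
  | (a :: w), v => by
    rw [occurs, Bool.or_eq_true, occurs_iff w v]
    constructor
    · rintro (h | ⟨i, h1, h2⟩)
      · exact ⟨0, by simp, by simpa using h⟩
      · exact ⟨i + 1, by simpa using h1, by simpa using h2⟩
    · rintro ⟨i, h1, h2⟩
      cases i with
      | zero => left; simpa using h2
      | succ i => right; exact ⟨i, by simpa using h1, by simpa using h2⟩

theorem factorIn_iff (l : List (Option Bool)) (hl : l.length = 22) (v : List Bool) :
    (∃ i, FactorIn (ofL l) i v) ↔ occurs l v = true := by
  rw [occurs_iff]
  constructor
  · rintro ⟨i, h1, h2⟩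
    refine ⟨i, by omega, ?_⟩
    rw [compat_iff]
    refine ⟨by simp only [List.length_drop]; omega, ?_⟩
    intro k hk
    have h3 := h2 k hk (by omega)
    have e : (l.drop i).getD k none = l.getD (i + k) none := by
      simp [List.getD_eq_getElem?_getD]
    rw [e]
    exact h3
  · rintro ⟨i, h1, h2⟩
    rw [compat_iff] at h2
    obtain ⟨h3, h4⟩ := h2
    rw [List.length_drop] at h3
    refine ⟨i, by omega, ?_⟩
    intro k hk hn
    have h5 := h4 k hk
    have e : (l.drop i).getD k none = l.getD (i + k) none := by
      simp [List.getD_eq_getElem?_getD]
    rw [e] at h5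
    exact h5

/-- squares of `wL` -/
def listA : List (List Bool) :=
  [[false], [true], [false,false], [false,true], [true,false], [false,false,false],
   [false,false,true], [false,true,false], [true,false,false], [false,false,false,true],
   [false,false,true,false], [false,true,false,false], [false,false,false,false,true],
   [false,false,false,true,false], [false,false,false,false,false,true],
   [false,false,false,false,true,false], [false,false,false,true,false,false],
   [true,false,false,false,false,false], [false,false,false,false,false,true,false],
   [false,false,false,false,true,false,false], [false,false,false,true,false,false,false],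
   [false,false,true,false,false,false,false], [false,true,false,false,false,false,false]]

/-- squares of `vL` -/
def listB : List (List Bool) :=
  [[false], [true], [false,false], [false,true], [true,false], [false,false,false,true],
   [false,false,false,false,true], [false,false,false,true,false]]

/-- all words of length `n` -/
def allW : ℕ → List (List Bool)
  | 0 => [[]]
  | n + 1 => (allW n).map (fun l => false :: l) ++ (allW n).map (fun l => true :: l)

theorem mem_allW : ∀ l : List Bool, l ∈ allW l.length
  | [] => by simp [allW]
  | false :: l => by simp [allW, mem_allW l]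
  | true :: l => by simp [allW, mem_allW l]

theorem checkA : ∀ x ∈ listA, x ≠ [] ∧ occurs wL (x ++ x) = true := by decide +kernel

theorem nodupA : listA.Nodup := by decide +kernel

theorem checkB : ∀ p ∈ List.range 12, ∀ x ∈ allW p, x ≠ [] → occurs vL (x ++ x) = true →
    x ∈ listB := by decide +kernel

theorem finite_sq (n : ℕ) (w : PWord n) :
    {x : List Bool | x ≠ [] ∧ ∃ i, FactorIn w i (x ++ x)}.Finite := by
  apply (List.finite_length_le Bool n).subset
  rintro x ⟨_, i, h, _⟩
  simp only [List.length_append] at h
  show x.length ≤ n
  omega

theorem sq_w : 23 ≤ Sq (ofL wL) := by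
  have h1 : (↑listA.toFinset : Set (List Bool)) ⊆
      {x : List Bool | x ≠ [] ∧ ∃ i, FactorIn (ofL wL) i (x ++ x)} := by
    intro x hx
    have hx' : x ∈ listA := by simpa using hx
    obtain ⟨h1, h2⟩ := checkA x hx'
    exact ⟨h1, (factorIn_iff wL rfl _).2 h2⟩
  have h2 := Set.ncard_le_ncard h1 (finite_sq _ _)
  rw [Set.ncard_coe_finset, List.toFinset_card_of_nodup nodupA] at h2
  exact h2

theorem sq_v : Sq (ofL vL) ≤ 8 := by
  have h1 : {x : List Bool | x ≠ [] ∧ ∃ i, FactorIn (ofL vL) i (x ++ x)} ⊆
      (↑listB.toFinset : Set (List Bool)) := by
    rintro x ⟨h1, h2⟩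
    have h3 : x.length ∈ List.range 12 := by
      obtain ⟨i, h, _⟩ := h2
      simp only [List.length_append] at h
      rw [List.mem_range]
      omega
    have h4 := checkB x.length h3 x (mem_allW x) h1 ((factorIn_iff vL rfl _).1 h2)
    simpa using h4
  have h2 := Set.ncard_le_ncard h1 (Finset.finite_toSet _)
  rw [Set.ncard_coe_finset] at h2
  exact h2.trans (List.toFinset_card_le _)

theorem strengthening : IsStrengthening (ofL wL) (ofL vL) :=
  ⟨11, true, by decide, by decide +kernel⟩

theorem holes_w : holes (ofL wL) = 2 := by
  have : {i | ofL wL i = none} = ↑(Finset.univ.filter (fun i => ofL wL i = none)) := by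
    ext i; simp
  rw [holes, this, Set.ncard_coe_finset]
  decide +kernel

theorem bdd1 {n : ℕ} (w : PWord n) :
    BddAbove {d : ℤ | ∃ w' : PWord n, IsStrengthening w w' ∧ d = (Sq w : ℤ) - (Sq w' : ℤ)} := by
  have : {d : ℤ | ∃ w' : PWord n, IsStrengthening w w' ∧ d = (Sq w : ℤ) - (Sq w' : ℤ)} =
      (fun w' => (Sq w : ℤ) - (Sq w' : ℤ)) '' {w' | IsStrengthening w w'} := by
    ext d
    constructor
    · rintro ⟨w', h1, h2⟩
      exact ⟨w', h1, h2.symm⟩
    · rintro ⟨w', h1, h2⟩
      exact ⟨w', h1, h2.symm⟩
  rw [this]
  exact ((Set.toFinite _).image _).bddAbove

theorem bdd2 (h n : ℕ) : BddAbove {d : ℤ | ∃ w : PWord n, holes w = h ∧ d = deltaSq w} := by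
  have : {d : ℤ | ∃ w : PWord n, holes w = h ∧ d = deltaSq w} =
      deltaSq '' {w : PWord n | holes w = h} := by
    ext d
    constructor
    · rintro ⟨w', h1, h2⟩
      exact ⟨w', h1, h2.symm⟩
    · rintro ⟨w', h1, h2⟩
      exact ⟨w', h1, h2.symm⟩
  rw [this]
  exact ((Set.toFinite _).image _).bddAbove

theorem lower : 15 ≤ deltaH 2 22 := by
  have h1 : (15 : ℤ) ≤ deltaSq (ofL wL) := by
    refine le_trans ?_ (le_csSup (bdd1 _) ⟨ofL vL, strengthening, rfl⟩)
    have := sq_w
    have := sq_v
    omega
  exact h1.trans (le_csSup (bdd2 2 22) ⟨ofL wL, holes_w, rfl⟩)

end Proof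

/-- **The largest decrease of the number of distinct squares by filling one of two holes is not
always `⌊7(n-1)/10⌋`**: it is at least `15` for `n = 22`. -/
theorem result : ∃ n : ℕ, 8 ≤ n ∧ deltaH 2 n ≠ ⌊(7 * ((n : ℚ) - 1)) / 10⌋ := by
  refine ⟨22, by norm_num, ?_⟩
  have h1 : ⌊(7 * (((22 : ℕ) : ℚ) - 1)) / 10⌋ = 14 := by
    rw [Int.floor_eq_iff]
    norm_num
  rw [h1]
  have := Proof.lower
  omega

end Pool.Agent.Results.MP_322323_co.TwoHoles
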